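import Pool.Agent.Run7.h441.JM.Stm

set_option autoImplicit false

namespace Run7.h391.JM.Mor

open Run7.h441.JM

lemma PQ_ne {k : ℤ} (hk : k ≠ 0) : ∀ m, (PQ k m).1 ≠ 0 ∧ (PQ k m).2 ≠ 0
  | 0 => ⟨one_ne_zero, one_ne_zero⟩
  | m + 1 => by
      obtain ⟨h1, h2⟩ := PQ_ne hk m
      refine ⟨mul_ne_zero hk ?_, mul_ne_zero h1 h2⟩
      positivity

/-- the critical orbit -/
noncomputable def xx (k : ℤ) (m : ℕ) : ℚ := (PQ k m).1 / (PQ k m).2

lemma xx_lt {k : ℤ} (hk : k ≠ 0) (m : ℕ) : (xx k m) ^ 2 < (xx k (m + 1)) ^ 2 := by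
  obtain ⟨h1, h2⟩ := PQ_ne hk m
  have h1' : ((PQ k m).1 : ℚ) ≠ 0 := by exact_mod_cast h1
  have h2' : ((PQ k m).2 : ℚ) ≠ 0 := by exact_mod_cast h2
  have e1 : xx k (m + 1) = k * (((PQ k m).1 : ℚ) ^ 2 + ((PQ k m).2 : ℚ) ^ 2) /
      ((PQ k m).1 * (PQ k m).2) := by
    simp [xx, PQ]
  rw [e1, xx]
  generalize hp : ((PQ k m).1 : ℚ) = p at *
  generalize hq : ((PQ k m).2 : ℚ) = q at *
  have hk2 : (1 : ℚ) ≤ (k : ℚ) ^ 2 := by
    have : (1 : ℤ) ≤ k ^ 2 := by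
      have : 0 < k ^ 2 := by positivity
      omega
    exact_mod_cast this
  rw [div_pow, div_pow, div_lt_div_iff₀ (by positivity) (by positivity)]
  have hp2 : 0 < p ^ 2 := by positivity
  have hq2 : 0 < q ^ 2 := by positivity
  have h3 : (p * q) ^ 2 * p ^ 2 < (p ^ 2 + q ^ 2) ^ 2 * q ^ 2 := by
    nlinarith [mul_pos hp2 hq2, mul_pos (mul_pos hp2 hq2) hq2, mul_pos (mul_pos hp2 hq2) hp2,
      mul_pos hq2 hq2, mul_pos (mul_pos hq2 hq2) hq2]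
  have h4 : (p ^ 2 + q ^ 2) ^ 2 * q ^ 2 ≤ (k : ℚ) ^ 2 * ((p ^ 2 + q ^ 2) ^ 2 * q ^ 2) := by
    have : 0 ≤ (p ^ 2 + q ^ 2) ^ 2 * q ^ 2 := by positivity
    nlinarith
  nlinarith [h3, h4]

lemma xx_mono {k : ℤ} (hk : k ≠ 0) : StrictMono (fun m => (xx k m) ^ 2) :=
  strictMono_nat_of_lt_succ (xx_lt hk)

/-- the `x`-coordinate on the curve -/
noncomputable def XX (k : ℤ) (m : ℕ) : ℚ := ((xx k m) ^ 2 - 1) / ((xx k m) ^ 2 + 1)

lemma XX_inj {k : ℤ} (hk : k ≠ 0) : Function.Injective (XX k) := by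
  intro a b h
  apply (xx_mono hk).injective
  show (xx k a) ^ 2 = (xx k b) ^ 2
  unfold XX at h
  have ha : 0 ≤ (xx k a) ^ 2 := sq_nonneg _
  have hb : 0 ≤ (xx k b) ^ 2 := sq_nonneg _
  generalize (xx k a) ^ 2 = A at *
  generalize (xx k b) ^ 2 = B at *
  rw [div_eq_div_iff (by positivity) (by positivity)] at h
  linarith

lemma curve {k : ℤ} (hk : k ≠ 0) (m : ℕ) (e z : ℤ) (h : D k (m + 2) = e * z ^ 2) :
    ∃ Y : ℚ, Y ^ 2 = ((-e : ℤ) : ℚ) * (XX k m) ^ 6 + ((e * (8 * k ^ 2 + 7) : ℤ) : ℚ) * (XX k m) ^ 4 +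
      ((-(e * (8 * k ^ 2 + 6 + ((4 * k ^ 2 + 1) ^ 2 + 4))) : ℤ) : ℚ) * (XX k m) ^ 2 +
      ((e * ((4 * k ^ 2 + 1) ^ 2 + 4) : ℤ) : ℚ) := by
  obtain ⟨h1, h2⟩ := PQ_ne hk m
  have h1' : ((PQ k m).1 : ℚ) ≠ 0 := by exact_mod_cast h1
  have h2' : ((PQ k m).2 : ℚ) ≠ 0 := by exact_mod_cast h2
  have hk' : (k : ℚ) ≠ 0 := by exact_mod_cast hk
  have hD : ((k : ℚ) * (((k : ℚ) * (((PQ k m).1 : ℚ) ^ 2 + ((PQ k m).2 : ℚ) ^ 2)) ^ 2 +
      (((PQ k m).1 : ℚ) * ((PQ k m).2 : ℚ)) ^ 2)) ^ 2 +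
      ((k : ℚ) * (((PQ k m).1 : ℚ) ^ 2 + ((PQ k m).2 : ℚ) ^ 2) *
        (((PQ k m).1 : ℚ) * ((PQ k m).2 : ℚ))) ^ 2 = e * z ^ 2 := by
    have := congrArg (Int.cast : ℤ → ℚ) h
    simpa [D, PQ] using this
  have hX : XX k m = (((PQ k m).1 : ℚ) ^ 2 - ((PQ k m).2 : ℚ) ^ 2) /
      (((PQ k m).1 : ℚ) ^ 2 + ((PQ k m).2 : ℚ) ^ 2) := by
    unfold XX xx
    field_simp
  rw [hX]
  generalize ((PQ k m).1 : ℚ) = p at *
  generalize ((PQ k m).2 : ℚ) = q at *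
  push_cast
  generalize (k : ℚ) = c at *
  generalize (e : ℚ) = f at *
  generalize (z : ℚ) = g at *
  have hr : p ^ 2 + q ^ 2 ≠ 0 := by positivity
  set r : ℚ := p ^ 2 + q ^ 2 with hrr
  have hU : ((p ^ 2 - q ^ 2) / r) ^ 2 = 1 - 4 * p ^ 2 * q ^ 2 / r ^ 2 := by
    rw [div_pow, eq_sub_iff_add_eq, ← add_div, div_eq_one_iff_eq (pow_ne_zero 2 hr), hrr]
    ring
  refine ⟨2 * f * (g / (c * r * (p * q))) * (4 * p ^ 2 * q ^ 2 / r ^ 2), ?_⟩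
  have e1 : (2 * f * (g / (c * r * (p * q))) * (4 * p ^ 2 * q ^ 2 / r ^ 2)) ^ 2 =
      4 * f * (f * g ^ 2) / (c * r * (p * q)) ^ 2 * (4 * p ^ 2 * q ^ 2 / r ^ 2) ^ 2 := by
    ring
  rw [e1, ← hD]
  have e2 : ((p ^ 2 - q ^ 2) / r) ^ 6 = (((p ^ 2 - q ^ 2) / r) ^ 2) ^ 3 := by ring
  have e3 : ((p ^ 2 - q ^ 2) / r) ^ 4 = (((p ^ 2 - q ^ 2) / r) ^ 2) ^ 2 := by ring
  rw [e2, e3, hU]
  clear_value r
  field_simp
  ring

lemma bad_finite (hM : S_MORD) {k : ℤ} (hk : k ≠ 0) (e : ℤ) :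
    {m : ℕ | ∃ z : ℤ, D k (m + 2) = e * z ^ 2}.Finite := by
  by_cases he : e = 0
  · have : {m : ℕ | ∃ z : ℤ, D k (m + 2) = e * z ^ 2} = ∅ := by
      ext m
      simp only [Set.mem_setOf_eq, Set.mem_empty_iff_false, iff_false]
      rintro ⟨z, hz⟩
      rw [he, zero_mul] at hz
      obtain ⟨h1, h2⟩ := PQ_ne hk (m + 2)
      have : 0 < D k (m + 2) := by unfold D; positivity
      omega
    rw [this]; exact Set.finite_empty
  -- the number field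
  obtain ⟨s, hs⟩ := IsAlgClosed.exists_pow_nat_eq (4 * (k : Ω) ^ 2 + 1) (n := 2) (by norm_num)
  have halg : Algebra.IsAlgebraic ℚ Ω := AlgebraicClosure.isAlgebraic ℚ
  have hint : IsIntegral ℚ s := (halg.isAlgebraic s).isIntegral
  let K := IntermediateField.adjoin ℚ {s}
  have hfd : FiniteDimensional ℚ K := IntermediateField.adjoin.finiteDimensional hint
  have hnf : NumberField K := { to_charZero := inferInstance, to_finiteDimensional := hfd }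
  let s0 : K := ⟨s, IntermediateField.mem_adjoin_simple_self ℚ s⟩
  have hs0 : s0 ^ 2 = 4 * (k : K) ^ 2 + 1 := by
    apply Subtype.ext
    push_cast
    exact hs
  have hkK : (k : K) ≠ 0 := by exact_mod_cast hk
  have hC : (4 * (k : K) ^ 2 + 1) ^ 2 + 4 ≠ 0 := by
    have : ((4 * k ^ 2 + 1) ^ 2 + 4 : ℤ) ≠ 0 := by positivity
    exact_mod_cast this
  have h41 : 4 * (k : K) ^ 2 + 1 ≠ 0 := by
    have : (4 * k ^ 2 + 1 : ℤ) ≠ 0 := by positivity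
    exact_mod_cast this
  have hprod : (4 * (k : K) ^ 2 + 3 + 2 * s0) * (4 * (k : K) ^ 2 + 3 - 2 * s0) =
      (4 * (k : K) ^ 2 + 1) ^ 2 + 4 := by
    linear_combination (-4) * hs0
  have hprod1 : (4 * (k : K) ^ 2 + 3 + 2 * s0 - 1) * (4 * (k : K) ^ 2 + 3 - 2 * s0 - 1) =
      16 * (k : K) ^ 4 := by
    linear_combination (-4) * hs0
  have h16 : 16 * (k : K) ^ 4 ≠ 0 := mul_ne_zero (by norm_num) (pow_ne_zero 4 hkK)
  have hs00 : s0 ≠ 0 := by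
    intro h; rw [h] at hs0; apply h41; rw [← hs0]; ring
  have hfin := hM K (e * ((4 * k ^ 2 + 1) ^ 2 + 4))
    (-(e * (8 * k ^ 2 + 6 + ((4 * k ^ 2 + 1) ^ 2 + 4)))) (e * (8 * k ^ 2 + 7)) (-e)
    1 (4 * (k : K) ^ 2 + 3 + 2 * s0) (4 * (k : K) ^ 2 + 3 - 2 * s0)
    (neg_ne_zero.mpr he) one_ne_zero
    (fun h => hC (by rw [← hprod, h, zero_mul]))
    (fun h => hC (by rw [← hprod, h, mul_zero]))
    (fun h => h16 (by rw [← hprod1, ← h, sub_self, zero_mul]))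
    (fun h => h16 (by rw [← hprod1, ← h, sub_self, mul_zero]))
    (fun h => hs00 (by
      have : (4 : K) * s0 = 0 := by linear_combination h
      rcases mul_eq_zero.mp this with h | h
      · norm_num at h
      · exact h))
    (by push_cast; ring) (by push_cast; linear_combination (-(e : K)) * (4 * hs0))
    (by push_cast; linear_combination ((e : K)) * (4 * hs0))
  have hinj : Function.Injective (fun m => ((XX k m : ℚ) : K)) := by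
    intro a b hab
    exact XX_inj hk (Rat.cast_injective hab)
  apply (hfin.preimage (f := fun m => ((XX k m : ℚ) : K)) hinj.injOn).subset
  rintro m ⟨z, hz⟩
  obtain ⟨Y, hY⟩ := curve hk m e z hz
  refine ⟨((Y : ℚ) : K), ?_⟩
  have := congrArg (Rat.cast : ℚ → K) hY
  push_cast at this
  push_cast
  exact this

theorem t_MOR : S_MORD → S_MOR := by
  intro hM k hk
  have h1 : {n : ℕ | ∃ e z : ℤ, e ∣ 2 * k ∧ D k n = e * z ^ 2} ⊆
      {0, 1} ∪ ⋃ e ∈ Set.Icc (-|2 * k|) |2 * k|,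
        (fun m => m + 2) '' {m : ℕ | ∃ z : ℤ, D k (m + 2) = e * z ^ 2} := by
    rintro n ⟨e, z, he, hz⟩
    rcases n with _ | _ | n
    · left; simp
    · left; simp
    · right
      refine Set.mem_biUnion (x := e) ?_ ⟨n, ⟨z, hz⟩, rfl⟩
      have hle : |e| ≤ |2 * k| := by
        have h2k : 0 < |2 * k| := by positivity
        exact Int.le_of_dvd h2k ((abs_dvd_abs e (2 * k)).mpr he)
      exact abs_le.mp hle |>.imp id id
  have h2 : {n : ℕ | ∃ e z : ℤ, e ∣ 2 * k ∧ D k n = e * z ^ 2}.Finite := by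
    apply Set.Finite.subset _ h1
    apply Set.Finite.union (by simp)
    apply Set.Finite.biUnion (Set.finite_Icc _ _)
    intro e _
    exact (bad_finite hM hk e).image _
  obtain ⟨N, hN⟩ := h2.bddAbove
  refine ⟨N + 1, fun n hn e z he hD => ?_⟩
  have : n ≤ N := hN ⟨e, z, he, hD⟩
  omega

end Run7.h391.JM.Mor
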