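import Pool.Agent.Run7.h441.JM.Stm

set_option autoImplicit false

namespace Run7.h391.JM

open Run7.h441.JM

lemma kne {k : ℤ} (hk : k ≠ 0) : (k : Ω) ≠ 0 := by exact_mod_cast hk

lemma exists_child (k : ℤ) (hk : k ≠ 0) (v : Ω) : ∃ r : Ω, (k : Ω) * (r ^ 2 - 1) = v * r := by
  have hk' := kne hk
  obtain ⟨s, hs⟩ := IsAlgClosed.exists_pow_nat_eq (v ^ 2 + 4 * (k : Ω) ^ 2) (n := 2) (by norm_num)
  refine ⟨(v + s) / (2 * k), ?_⟩
  field_simp
  linear_combination hs

/-- a child `y` of `u` in terms of `s = 2 k y - u` -/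
lemma child_sq {k : ℤ} {u y : Ω} (h : (k : Ω) * (y ^ 2 - 1) = u * y) :
    (2 * k * y - u) ^ 2 = u ^ 2 + 4 * (k : Ω) ^ 2 := by
  linear_combination 4 * (k : Ω) * h

lemma lev_map {k : ℤ} (g : Γ) : ∀ (n : ℕ) (y : Ω), Lev k n y → Lev k n (g y)
  | 0, y, h => by
      have h' : y = 1 := h
      rw [h']; exact map_one g
  | n + 1, y, ⟨u, hu, h⟩ => by
      refine ⟨g u, lev_map g n u hu, ?_⟩
      have := congrArg g h
      simpa using this

lemma pow_fix {k : ℤ} (hk : k ≠ 0) : ∀ (n : ℕ) (g : Γ) (y : Ω), Lev k n y →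
    (g ^ (2 ^ n) : Γ) y = y
  | 0, g, y, h => by
      have h' : y = 1 := h
      rw [h']; exact map_one _
  | n + 1, g, y, ⟨u, hu, h⟩ => by
      have hk' := kne hk
      set a : Γ := g ^ (2 ^ n) with ha
      have hau : a u = u := pow_fix hk n g u hu
      have e : (g ^ (2 ^ (n + 1)) : Γ) y = a (a y) := by
        have : g ^ (2 ^ (n + 1)) = a * a := by
          rw [ha, ← pow_add]; congr 1; ring
        rw [this]; rfl
      rw [e]
      have h1 := child_sq h
      have h2 : (k : Ω) * ((a y) ^ 2 - 1) = u * a y := by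
        have := congrArg a h
        simpa [hau] using this
      have h3 := child_sq h2
      have h4 : (2 * k * a y - u) ^ 2 = (2 * k * y - u) ^ 2 := by rw [h3, h1]
      rcases sq_eq_sq_iff_eq_or_eq_neg.mp h4 with h5 | h5
      · have h6 : a y = y := by
          have : (2 * k : Ω) * a y = (2 * k : Ω) * y := by linear_combination h5
          exact mul_left_cancel₀ (by simpa using hk) this
        rw [h6, h6]
      · have h6 : (2 * k : Ω) * a y = 2 * u - 2 * k * y := by linear_combination h5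
        have h7 := congrArg a h6
        have h8 : (2 * k : Ω) * a (a y) = 2 * u - 2 * k * a y := by
          simpa [hau, map_ofNat] using h7
        have : (2 * k : Ω) * a (a y) = (2 * k : Ω) * y := by rw [h8, h6]; ring
        exact mul_left_cancel₀ (by simpa using hk) this

/-- a positive natural number all of whose valuations outside `M` are even is `e z²`, `e ∣ M` -/
lemma sqfree_part (d M : ℕ) (hd : d ≠ 0) (hM : M ≠ 0)
    (h : ∀ q : ℕ, q.Prime → ¬ q ∣ M → Even (padicValNat q d)) :
    ∃ e z : ℕ, e ∣ M ∧ d = e * z ^ 2 := by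
  obtain ⟨e, z, hez, hsq⟩ := Nat.sq_mul_squarefree d
  refine ⟨e, z, ?_, by rw [← hez]; ring⟩
  have he0 : e ≠ 0 := by rintro rfl; exact hd (by rw [← hez]; simp)
  have hz0 : z ≠ 0 := by rintro rfl; exact hd (by rw [← hez]; simp)
  have key : e.primeFactors ⊆ M.primeFactors := by
    intro q hq
    have hqp := Nat.prime_of_mem_primeFactors hq
    have hqe := Nat.dvd_of_mem_primeFactors hq
    by_contra hc
    have hqM : ¬ q ∣ M := fun hh => hc (Nat.mem_primeFactors.mpr ⟨hqp, hh, hM⟩)
    have hE := h q hqp hqM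
    have hF : Fact q.Prime := ⟨hqp⟩
    rw [← hez, padicValNat.mul (pow_ne_zero 2 hz0) he0, padicValNat.pow] at hE
    have h1 : padicValNat q e = 1 := by
      have h2 : padicValNat q e ≤ 1 := by
        rw [← Nat.factorization_def e hqp]
        exact (Nat.squarefree_iff_factorization_le_one he0).mp hsq q
      have h3 : 1 ≤ padicValNat q e := one_le_padicValNat_of_dvd he0 hqe
      omega
    rw [h1] at hE
    have h4 : Even (2 * padicValNat q z) := even_two_mul _
    rw [Nat.even_add] at hE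
    exact absurd (hE.mp h4) (by decide)
  calc e = ∏ p ∈ e.primeFactors, p := (Nat.prod_primeFactors_of_squarefree hsq).symm
    _ ∣ ∏ p ∈ M.primeFactors, p := Finset.prod_dvd_prod_of_subset _ _ _ key
    _ ∣ M := Nat.prod_primeFactors_dvd M

theorem t_SUR : S_PRD → S_COP → S_RAM → S_KSL → S_TRS → S_SUR := by
  intro hPRD hCOP hRAM hKSL hTRS k hk n hD v hv
  have hk' := kne hk
  obtain ⟨hfin, hne, hprod⟩ := hPRD k hk n
  set Y : Finset Ω := hfin.toFinset with hY
  have hmem : ∀ y : Ω, y ∈ Y ↔ Lev k n y := by intro y; simp [hY]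
  have hpr := hprod Y hmem
  choose r hr using exists_child k hk
  set t : Ω → Ω := fun u => 2 * k * r u - u with ht
  have htsq : ∀ u, (t u) ^ 2 = u ^ 2 + 4 * (k : Ω) ^ 2 := fun u => child_sq (hr u)
  have ht0 : ∀ y ∈ Y, t y ≠ 0 := by
    intro y hy h0
    have := htsq y
    rw [h0] at this
    exact hne y ((hmem y).1 hy) (by rw [← this]; ring)
  have hch : ∀ u y : Ω, (k : Ω) * (y ^ 2 - 1) = u * y →
      2 * k * y - u = t u ∨ 2 * k * y - u = - t u := by
    intro u y h
    apply sq_eq_sq_iff_eq_or_eq_neg.mp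
    rw [child_sq h, htsq u]
  have hgt : ∀ (g : Γ) (y : Ω), g (t y) = t (g y) ∨ g (t y) = - t (g y) := by
    intro g y
    apply sq_eq_sq_iff_eq_or_eq_neg.mp
    rw [htsq, ← map_pow, htsq]
    simp [map_ofNat]
  have hDpos : D k (n + 1) ≠ 0 := by
    intro h0
    rw [h0] at hpr
    simp only [Int.cast_zero, mul_eq_zero] at hpr
    rcases hpr with h | h
    · exact pow_ne_zero _ hk' h
    · rw [Finset.prod_eq_zero_iff] at h
      obtain ⟨y, hy, h⟩ := h
      exact hne y ((hmem y).1 hy) h
  have hDnn : 0 ≤ D k (n + 1) := by unfold D; positivity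
  -- the product is not fixed
  have hnf : ∃ g : Γ, (∀ y ∈ Y, g • y = y) ∧ g • (∏ y ∈ Y, t y) ≠ ∏ y ∈ Y, t y := by
    by_contra hcon
    push Not at hcon
    set x : Ω := (k : Ω) ^ (2 ^ n - 1) * ∏ y ∈ Y, t y with hx
    have hx2 : x ^ 2 = ((D k (n + 1) : ℤ) : Ω) := by
      rw [← hpr, hx, mul_pow, ← Finset.prod_pow, ← pow_mul]
      congr 1
      · congr 1
        rw [pow_succ]; omega
      · exact Finset.prod_congr rfl (fun y _ => htsq y)
    have hxf : ∀ g : Γ, (∀ y : Ω, Lev k n y → g y = y) → g x = x := by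
      intro g hg
      have h1 := hcon g (fun y hy => hg y ((hmem y).1 hy))
      have h2 : g (∏ y ∈ Y, t y) = ∏ y ∈ Y, t y := h1
      rw [hx, map_mul, h2, map_pow, map_intCast]
    have hev : ∀ q : ℕ, q.Prime → ¬ q ∣ (2 * k).natAbs → Even (padicValNat q (D k (n + 1)).natAbs) := by
      intro q hq hq2
      have hq2' : ¬ ((q : ℤ) ∣ 2 * k) := by
        intro h; exact hq2 (Int.natCast_dvd.mp h)
      by_cases hqD : (q : ℤ) ∣ D k (n + 1)
      · have := hRAM k hk n q hq hq2' (fun j hj1 hjn hjd =>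
          hCOP k hk q hq hq2' j (n + 1) hj1 (by omega) hjd hqD) x (D k (n + 1)) hDpos hx2 hxf
        exact this
      · have : padicValNat q (D k (n + 1)).natAbs = 0 := by
          apply padicValNat.eq_zero_of_not_dvd
          intro h; exact hqD (Int.natCast_dvd.mpr h)
        rw [this]; exact ⟨0, rfl⟩
    obtain ⟨e, z, he, hez⟩ := sqfree_part (D k (n + 1)).natAbs (2 * k).natAbs
      (by simpa using hDpos) (by simpa using hk) hev
    apply hD e z (Int.natCast_dvd.mpr he)
    have : ((D k (n + 1)).natAbs : ℤ) = D k (n + 1) := Int.natAbs_of_nonneg hDnn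
    rw [← this, hez]; push_cast; ring
  obtain ⟨g, hg1, hg2, hg3⟩ := hKSL Γ Ω Y t n (by norm_num)
    (fun g y hy => (hmem _).2 (lev_map g n y ((hmem y).1 hy)))
    (fun y hy y' hy' => hTRS k hk n y y' ((hmem y).1 hy) ((hmem y').1 hy'))
    (fun g y hy => pow_fix hk n g y ((hmem y).1 hy)) ht0 (fun g y _ => hgt g y) hnf v
    ((hmem v).2 hv)
  have hg1' : ∀ y : Ω, Lev k n y → g y = y := fun y hy => hg1 y ((hmem y).2 hy)
  have hg2' : g (t v) = - t v := hg2
  refine ⟨g, hg1', ?_, ?_⟩
  · intro y hy hgy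
    have h1 : g (2 * k * y - v) = 2 * k * y - v := by simp [hgy, hg1' v hv, map_ofNat]
    have h2 : t v = - t v := by
      rcases hch v y hy with h | h
      · rw [h, hg2'] at h1; exact h1.symm
      · rw [h, map_neg, hg2', neg_neg] at h1; exact h1
    have h3 : t v = 0 := by
      have : (2 : Ω) * t v = 0 := by linear_combination h2
      rcases mul_eq_zero.mp this with h | h
      · norm_num at h
      · exact h
    exact ht0 v ((hmem v).2 hv) h3
  · intro u y hu huv hy
    have hgu : g (t u) = t u := hg3 u ((hmem u).2 hu) huv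
    have h1 : g (2 * k * y - u) = 2 * k * y - u := by
      rcases hch u y hy with h | h
      · rw [h]; exact hgu
      · rw [h, map_neg, hgu]
    have h2 : (2 * k : Ω) * g y = 2 * k * y := by
      have : (2 * k : Ω) * g y - u = 2 * k * y - u := by simpa [hg1' u hu, map_ofNat] using h1
      linear_combination this
    exact mul_left_cancel₀ (by simpa using hk) h2

end Run7.h391.JM
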